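import Mathlib
import Pool.Agent.Helper669.Two
import Pool.Agent.Helper669.Pos

/-!
# The Levy collapse of the continuum can destroy the strong polarized relation

For every regular cardinal `κ > ℵ₁` there is a forcing notion `P` such that in the extension by
`P`: cardinals are preserved, `κ` is regular, `ℵ₁ < κ < 𝔠` and `(κ, ω) → (κ, ω)` holds, while the
relation fails after forcing further with `Levy(κ, 𝔠)`, i.e. in the extension by the two-step
iteration `P * Levy(κ, 𝔠)`.
-/

namespace Pool.Agent.Results.MP_6efb98_lc.TwoStep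

open Cardinal Pool.Agent.Helper669.Forcing Pool.Agent.Helper669.Forcing2

/-- The countable chain condition: pairwise incompatible conditions form a countable set. -/
def CCC (P : Type) [Preorder P] : Prop :=
  ∀ A : Set P, (∀ a ∈ A, ∀ b ∈ A, (∃ s, s ≤ a ∧ s ≤ b) → a = b) → A.Countable

open Pool.Agent.Helper669.MMain in
theorem result (K : Type) (hK : (#K).IsRegular) (hK1 : ℵ₁ < #K) :
    ∃ (P : Type) (_ : Preorder P), Nonempty P ∧ CCC P ∧
      (∀ p : P, p ∈ CardinalsPreserved.{0, 0} P ∧ p ∈ StaysRegular P #K ∧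
        p ∈ LtContinuum P K ∧ p ∈ Polarized P K ℕ) ∧
      ∀ d : LevyIter P K, d ∈ fnot (Polarized (LevyIter P K) K ℕ) := by
  have hunc : ℵ₀ < #K := aleph0_lt_aleph_one.trans hK1
  have hreg : (Order.succ #K).IsRegular := isRegular_succ hK.aleph0_le
  have hcof : ∀ S : Set (Order.succ #K).ord.ToType, #S ≤ #K → ∃ b, ∀ s ∈ S, s < b := by
    intro S hS
    by_contra hcon
    push Not at hcon
    have h1 : IsCofinal S := fun b => by
      obtain ⟨s, hs, hb⟩ := hcon b
      exact ⟨s, hs, hb⟩
    have h2 := Order.cof_le h1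
    rw [Ordinal.cof_toType, hreg.cof_ord] at h2
    exact absurd (h2.trans hS) (not_le.2 (Order.lt_succ _))
  refine ⟨PM (Order.succ #K).ord.ToType, inferInstance, inferInstance,
    Pool.Agent.Helper669.Two.pm_ccc, fun p => ⟨?_, ?_, ?_, ?_⟩, fun d => ?_⟩
  · exact cardinalsPreserved p
  · exact staysRegular hK hunc p
  · exact ltContinuum hK.aleph0_le hcof le_rfl p
  · exact Pool.Agent.Helper669.Pos.polarized hK hunc hcof p
  · exact Pool.Agent.Helper669.Two.not_polarized_iter hK hunc hcof d

end Pool.Agent.Results.MP_6efb98_lc.TwoStep
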